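import Pool.Agent.H25.IC.Main

/-!
# The defect of `2 ^ n * 3 ^ k`
-/

set_option autoImplicit false

namespace Pool.Agent.H25.IC

open Filter

noncomputable section

/-- The analytic conditions hold for all large `n`. -/
lemma large : ∀ᶠ n : ℕ in atTop, ∀ ln lln : ℝ, ln = Real.log n → lln = Real.log ln →
    1 ≤ lln ∧ 10 ^ 24 ≤ 0.9 * ln ∧ 8 * lln + 3 ≤ 0.08 * ln ∧
      60 * ln < (n : ℝ) ^ (0.1 : ℝ) ∧ 16 * 10 ^ 14 * ln ^ 4 ≤ ((n : ℝ) ^ (0.9 : ℝ)) ^ 2 := by
  have hn : Tendsto (fun n : ℕ => (n : ℝ)) atTop atTop := tendsto_natCast_atTop_atTop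
  have hl : Tendsto (fun n : ℕ => Real.log n) atTop atTop := Real.tendsto_log_atTop.comp hn
  have hll : Tendsto (fun n : ℕ => Real.log (Real.log n)) atTop atTop :=
    Real.tendsto_log_atTop.comp hl
  have e1 : ∀ᶠ x : ℝ in atTop, Real.log x ≤ 0.001 * x := by
    have := Real.isLittleO_log_id_atTop.bound (show (0 : ℝ) < 0.001 by norm_num)
    filter_upwards [this, eventually_ge_atTop 1] with x hx hx1
    rw [Real.norm_of_nonneg (Real.log_nonneg hx1), id, Real.norm_of_nonneg (by linarith)] at hx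
    exact hx
  have e2 : ∀ᶠ x : ℝ in atTop, Real.log x ≤ 0.001 * x ^ (0.1 : ℝ) := by
    have := (isLittleO_log_rpow_atTop (show (0 : ℝ) < 0.1 by norm_num)).bound
      (show (0 : ℝ) < 0.001 by norm_num)
    filter_upwards [this, eventually_ge_atTop 1] with x hx hx1
    rw [Real.norm_of_nonneg (Real.log_nonneg hx1),
      Real.norm_of_nonneg (Real.rpow_nonneg (by linarith) _)] at hx
    exact hx
  filter_upwards [hll.eventually_ge_atTop 1, hl.eventually_ge_atTop (10 ^ 25),
    hl.eventually e1, hn.eventually e2, eventually_ge_atTop 1] with n h1 h2 h3 h4 h5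
  intro ln lln hln hlln
  rw [← hln] at h1 h2 h3 h4
  rw [← hlln] at h1 h3
  have hn0 : (0 : ℝ) < n := by exact_mod_cast h5
  set w : ℝ := (n : ℝ) ^ (0.1 : ℝ) with hw
  have hw9 : (n : ℝ) ^ (0.9 : ℝ) = w ^ 9 := by
    rw [hw, ← Real.rpow_natCast, ← Real.rpow_mul hn0.le]
    norm_num
  have hln0 : 0 < ln := by linarith
  have hwl : ln ≤ w := by linarith
  have hwb : 10 ^ 25 ≤ w := by linarith
  refine ⟨h1, by linarith, by linarith, by linarith, ?_⟩
  rw [hw9]
  have k1 : ln ^ 4 ≤ w ^ 4 := pow_le_pow_left₀ hln0.le hwl 4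
  have k2 : (10 : ℝ) ^ 25 ≤ w ^ 14 := by
    calc (10 : ℝ) ^ 25 ≤ w ^ 1 := by rw [pow_one]; exact hwb
      _ ≤ w ^ 14 := pow_le_pow_right₀ (by linarith) (by norm_num)
  have k3 : (0 : ℝ) ≤ w ^ 4 := by positivity
  calc 16 * 10 ^ 14 * ln ^ 4 ≤ 10 ^ 25 * w ^ 4 := by
        have : (0 : ℝ) ≤ ln ^ 4 := by positivity
        nlinarith
    _ ≤ w ^ 14 * w ^ 4 := mul_le_mul_of_nonneg_right k2 k3
    _ = (w ^ 9) ^ 2 := by ring

open Ex in
theorem defect : ∀ᶠ n : ℕ in atTop, ∀ (k : ℕ) (e : Ex), e.val = 2 ^ n * 3 ^ k →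
    L * (Real.log n / (10 * Real.log (Real.log n))) ≤ e.kap := by
  filter_upwards [large, eventually_ge_atTop 2] with n hn hn2 k e he
  obtain ⟨h1, h2, h3, h4, h5⟩ := hn _ _ rfl rfl
  set ln := Real.log n with hln
  set lln := Real.log ln with hlln
  by_contra hcon
  rw [not_le] at hcon
  have hL := L_gt
  have hL' := L_lt
  have hn0 : (0 : ℝ) < n := by positivity
  have hln0 : 0 < ln := by linarith
  have hq : ln / (10 * lln) ≤ ln / 10 := by
    apply div_le_div_of_nonneg_left hln0.le (by norm_num)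
    linarith
  have hq0 : 0 ≤ ln / (10 * lln) := by positivity
  have hκ1 : e.kap ≤ 0.04 * ln := by nlinarith
  have hκ0 := kap_nonneg e
  have hM : (0 : ℝ) < (n : ℝ) ^ (0.9 : ℝ) := by positivity
  rcases root ((n : ℝ) ^ (0.9 : ℝ)) hM.le e n k he with h | h
  · obtain ⟨a, b, m, j, hv, hm, hmn, hk⟩ := h
    have hm0 : (0 : ℝ) < m := by linarith
    have hlm : 0.9 * ln ≤ Real.log m := by
      have := Real.log_le_log hM hm.le
      rwa [Real.log_rpow hn0] at this
    have hlm' : Real.log m ≤ ln := Real.log_le_log hm0 (by exact_mod_cast hmn)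
    have hlm0 : 0 < Real.log m := by linarith
    have hllm : Real.log (Real.log m) ≤ lln := Real.log_le_log hlm0 hlm'
    apply root_bound (l := Real.log m) rfl (by linarith) hv (by linarith)
    · have hlen := length_lst (add a b)
      set N := (add a b).lst.length with hN
      have hN0 : (0 : ℝ) ≤ (N : ℝ) := Nat.cast_nonneg _
      have h6 : (N : ℝ) * 0.98 ≤ ln / (10 * lln) := by
        have h7 : (N : ℝ) * (0.98 * L) ≤ L * (ln / (10 * lln)) := by linarith
        have h8 : (N : ℝ) * 0.98 * L ≤ ln / (10 * lln) * L := by linarith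
        exact le_of_mul_le_mul_right h8 (by linarith)
      have h7 : 9.8 * ((N : ℝ) * lln) ≤ ln := by
        rw [le_div_iff₀ (by linarith)] at h6
        linarith
      rw [← Real.log_le_log_iff (by positivity) hm0, Real.log_mul (by norm_num) (by positivity),
        Real.log_pow, Real.log_pow]
      have h8 : Real.log 12 ≤ 3 := by
        have l2 := Real.log_two_lt_d9
        have l3 := Real.log_three_lt_d9
        have : Real.log 12 = 2 * Real.log 2 + Real.log 3 := by
          rw [show (12 : ℝ) = 2 ^ 2 * 3 by norm_num, Real.log_mul (by norm_num) (by norm_num),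
            Real.log_pow]
          push_cast
          ring
        linarith
      push_cast
      have h9 : ((N : ℝ) + 1) * (8 * Real.log (Real.log m)) ≤ ((N : ℝ) + 1) * (8 * lln) := by
        gcongr
      nlinarith
    · have h6 : Real.log m ^ 4 ≤ ln ^ 4 := pow_le_pow_left₀ hlm0.le hlm' 4
      have h7 : ((n : ℝ) ^ (0.9 : ℝ)) ^ 2 ≤ (m : ℝ) ^ 2 := pow_le_pow_left₀ hM.le hm.le 2
      linarith
  · have h6 : (n : ℝ) = (n : ℝ) ^ (0.9 : ℝ) * (n : ℝ) ^ (0.1 : ℝ) := by
      rw [← Real.rpow_add hn0]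
      norm_num
    have h7 : (n : ℝ) ^ (0.9 : ℝ) * (n : ℝ) ^ (0.1 : ℝ) ≤ (n : ℝ) ^ (0.9 : ℝ) * (60 * e.kap) := by
      rw [← h6]
      exact h
    have h8 := le_of_mul_le_mul_left h7 hM
    linarith

end

end Pool.Agent.H25.IC
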