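import Pool.Agent.H25.IC.Tree

/-!
# The truncation error and the gap
-/

set_option autoImplicit false

namespace Pool.Agent.H25.IC

noncomputable section

namespace Ex

/-- The truncation error. -/
lemma err (D H G : ℝ) (hH : 6 ≤ H) (e : Ex) (hD : e.kap ≤ D)
    (hgap : ∀ x ∈ e.lst, x ≤ H ∨ G < x) :
    Real.log e.val ≤ Real.log (e.tr H) + e.lst.length * (2 * Real.exp (60 * L * D - G)) := by
  have hL := L_gt
  have hE : 0 < 2 * Real.exp (60 * L * D - G) := by positivity
  revert hD hgap
  induction e using big_ind with
  | h1 => intro _ _; simp [tr, val, lst]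
  | hm a b ha hb =>
    intro hD hgap
    rw [kap_mul] at hD
    have ka := kap_nonneg a
    have kb := kap_nonneg b
    have h1 := ha (by linarith) (fun x hx => hgap x (by simp [lst, hx]))
    have h2 := hb (by linarith) (fun x hx => hgap x (by simp [lst, hx]))
    have va : (0 : ℝ) < a.val := by exact_mod_cast val_pos a
    have vb : (0 : ℝ) < b.val := by exact_mod_cast val_pos b
    have ta : (0 : ℝ) < a.tr H := by exact_mod_cast tr_pos H a
    have tb : (0 : ℝ) < b.tr H := by exact_mod_cast tr_pos H b
    simp only [tr, val, lst, List.length_append]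
    push_cast
    rw [Real.log_mul va.ne' vb.ne', Real.log_mul ta.ne' tb.ne']
    linarith
  | ha a b h =>
    intro hD hgap
    by_cases h2 : Real.log ((a.val + b.val : ℕ) : ℝ) ≤ H
    · rw [tr_add' H a b h2]
      have : (0 : ℝ) ≤ ((add a b).lst.length : ℝ) := Nat.cast_nonneg _
      simp only [val]
      nlinarith
    · have hv0 : (0 : ℝ) < ((a.val + b.val : ℕ) : ℝ) := by
        have := val_pos a
        exact_mod_cast (show 0 < a.val + b.val by omega)
      have h3 : 200 ≤ a.val + b.val := by
        by_contra h4
        apply h2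
        have h5 : ((a.val + b.val : ℕ) : ℝ) ≤ Real.exp 6 := by
          have h6 : ((a.val + b.val : ℕ) : ℝ) ≤ 200 := by
            exact_mod_cast (show a.val + b.val ≤ 200 by omega)
          have h7 : (200 : ℝ) ≤ Real.exp 6 := by
            have h8 := Real.exp_one_gt_d9
            have h9 : Real.exp 6 = Real.exp 1 ^ 6 := by
              rw [← Real.exp_nat_mul]
              norm_num
            rw [h9]
            calc (200 : ℝ) ≤ 2.7 ^ 6 := by norm_num
              _ ≤ Real.exp 1 ^ 6 := pow_le_pow_left₀ (by norm_num) (by linarith) 6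
          linarith
        calc Real.log ((a.val + b.val : ℕ) : ℝ) ≤ Real.log (Real.exp 6) :=
              Real.log_le_log hv0 h5
          _ = 6 := Real.log_exp 6
          _ ≤ H := hH
      rw [lst_add a b h3] at hgap ⊢
      rw [tr_add H a b h2]
      obtain ⟨g3, g4, g5⟩ := big_sml a b
      have h4 : 3 ≤ (big a b).val := by omega
      have h5 := cost a b h4
      have h6 := kap_nonneg (big a b)
      have h7 := h (by have : (0 : ℝ) ≤ (sml a b).sz := Nat.cast_nonneg _
                       linarith) (fun x hx => hgap x (List.mem_cons_of_mem _ hx))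
      have h8 : G < Real.log ((a.val + b.val : ℕ) : ℝ) := by
        rcases hgap _ List.mem_cons_self with h9 | h9
        · exact absurd h9 h2
        · exact h9
      have hx : (0 : ℝ) < (big a b).val := by exact_mod_cast val_pos _
      have hy : (0 : ℝ) < (sml a b).val := by exact_mod_cast val_pos _
      have h9 : ((sml a b).val : ℝ) ≤ Real.exp (60 * L * D) := by
        have k1 := log_val_le (sml a b)
        have k2 : ((sml a b).sz : ℝ) ≤ 60 * D := by linarith
        rw [← Real.log_le_iff_le_exp hy]
        nlinarith
      have h10 : Real.exp G ≤ 2 * (big a b).val := by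
        have k1 : Real.exp G ≤ ((a.val + b.val : ℕ) : ℝ) := by
          rw [← Real.le_log_iff_exp_le hv0]
          exact h8.le
        have k2 : ((a.val + b.val : ℕ) : ℝ) ≤ 2 * (big a b).val := by
          exact_mod_cast (show a.val + b.val ≤ 2 * (big a b).val by omega)
        linarith
      have h11 : Real.log (1 + ((sml a b).val : ℝ) / (big a b).val) ≤
          2 * Real.exp (60 * L * D - G) := by
        have k1 := Real.log_le_sub_one_of_pos
          (show 0 < 1 + ((sml a b).val : ℝ) / (big a b).val by positivity)
        have k2 : ((sml a b).val : ℝ) / (big a b).val ≤ 2 * Real.exp (60 * L * D - G) := by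
          rw [div_le_iff₀ hx, Real.exp_sub]
          have k3 : 2 * (Real.exp (60 * L * D) / Real.exp G) * ((big a b).val : ℝ) =
              Real.exp (60 * L * D) * (2 * (big a b).val / Real.exp G) := by ring
          rw [k3]
          have k4 : 1 ≤ 2 * ((big a b).val : ℝ) / Real.exp G := by
            rw [one_le_div (Real.exp_pos G)]
            exact h10
          have k5 := Real.exp_pos (60 * L * D)
          nlinarith
        linarith
      have h12 : Real.log ((a.val + b.val : ℕ) : ℝ) = Real.log (big a b).val +
          Real.log (1 + ((sml a b).val : ℝ) / (big a b).val) := by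
        rw [← Real.log_mul hx.ne' (by positivity)]
        congr 1
        rw [← g4]
        push_cast
        field_simp
      simp only [val]
      rw [h12, List.length_cons]
      push_cast
      linarith

/-- An expression of `2 ^ n * 3 ^ k` contains an additive expression of a number `2 ^ m * 3 ^ j`
with large `m`, or its defect is large. -/
lemma root (M : ℝ) (hM : 0 ≤ M) (e : Ex) : ∀ n k : ℕ, e.val = 2 ^ n * 3 ^ k →
    (∃ (a b : Ex) (m j : ℕ), (add a b).val = 2 ^ m * 3 ^ j ∧ M < m ∧ m ≤ n ∧
      (add a b).kap ≤ e.kap) ∨
      (n : ℝ) ≤ M * (60 * e.kap) := by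
  induction e with
  | one =>
    intro n k h
    right
    have h1 : n = 0 := by
      by_contra h0
      have h2 : 2 ∣ 2 ^ n * 3 ^ k := Dvd.dvd.mul_right (dvd_pow_self 2 h0) _
      rw [← h] at h2
      norm_num [val] at h2
    have := kap_nonneg one
    rw [h1]
    push_cast
    positivity
  | mul a b ha hb =>
    intro n k h
    have hsm : ∀ x : ℕ, x ∣ 2 ^ n * 3 ^ k → ∃ i j : ℕ, x = 2 ^ i * 3 ^ j := by
      intro x hx
      obtain ⟨y, z, hy, hz, rfl⟩ := (Nat.dvd_mul).mp hx
      obtain ⟨i, hi, rfl⟩ := (Nat.dvd_prime_pow Nat.prime_two).mp hy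
      obtain ⟨j, hj, rfl⟩ := (Nat.dvd_prime_pow Nat.prime_three).mp hz
      exact ⟨i, j, rfl⟩
    obtain ⟨i, j, hi⟩ := hsm a.val (by rw [← h]; exact Dvd.intro _ rfl)
    obtain ⟨i', j', hi'⟩ := hsm b.val (by rw [← h]; exact Dvd.intro_left _ rfl)
    have hn : n = i + i' := by
      have h1 : 2 ^ (i + i') * 3 ^ (j + j') = 2 ^ n * 3 ^ k := by
        rw [← h]
        simp only [val]
        rw [hi, hi', pow_add, pow_add]
        ring
      have h2 : ∀ x y : ℕ, padicValNat 2 (2 ^ x * 3 ^ y) = x := by
        intro x y
        rw [padicValNat.mul (by positivity) (by positivity), padicValNat.prime_pow,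
          padicValNat.eq_zero_of_not_dvd (by
            intro h0
            have h1 := Nat.prime_two.dvd_of_dvd_pow h0
            omega), add_zero]
      have h3 := congrArg (padicValNat 2) h1
      rw [h2, h2] at h3
      exact h3.symm
    rw [kap_mul]
    have ka := kap_nonneg a
    have kb := kap_nonneg b
    rcases ha i j hi with h1 | h1
    · left
      obtain ⟨x, y, m, l, h2, h3, h5, h4⟩ := h1
      exact ⟨x, y, m, l, h2, h3, by omega, by linarith⟩
    · rcases hb i' j' hi' with h1' | h1'
      · left
        obtain ⟨x, y, m, l, h2, h3, h5, h4⟩ := h1'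
        exact ⟨x, y, m, l, h2, h3, by omega, by linarith⟩
      · right
        rw [hn]
        push_cast
        linarith
  | add a b ha hb =>
    intro n k h
    by_cases hn : M < n
    · left
      exact ⟨a, b, n, k, h, hn, le_rfl, le_rfl⟩
    · right
      rcases Nat.eq_zero_or_pos n with h0 | h0
      · have := kap_nonneg (add a b)
        rw [h0]
        push_cast
        positivity
      · have h1 := kap_of_not_pow (add a b) (by
          intro j hj
          rw [hj] at h
          have h2 : 2 ∣ 3 ^ j := by
            rw [h]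
            exact Dvd.dvd.mul_right (dvd_pow_self 2 (by omega)) _
          have h3 := Nat.prime_two.dvd_of_dvd_pow h2
          omega)
        push Not at hn
        nlinarith

end Ex

/-- A gap in a finite set of reals. -/
lemma exists_gap (l : List ℝ) (H0 K : ℝ) (hH : 0 < H0) (hK : 1 ≤ K) :
    ∃ i ≤ l.length, ∀ x ∈ l, x ≤ H0 * K ^ i ∨ H0 * K ^ (i + 1) < x := by
  classical
  by_contra hcon
  push Not at hcon
  have h1 : ∀ i ∈ Finset.range (l.length + 1), ∃ x ∈ l.toFinset, H0 * K ^ i < x ∧
      x ≤ H0 * K ^ (i + 1) := by
    intro i hi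
    obtain ⟨x, hx, h2, h3⟩ := hcon i (by simpa [Nat.lt_succ_iff] using hi)
    exact ⟨x, by simpa using hx, h2, h3⟩
  choose! f hf hf2 using h1
  have h2 : Set.InjOn f (Finset.range (l.length + 1) : Set ℕ) := by
    have key : ∀ i j : ℕ, i ∈ Finset.range (l.length + 1) → j ∈ Finset.range (l.length + 1) →
        i < j → f i < f j := by
      intro i j hi hj hij
      obtain ⟨a1, a2⟩ := hf2 i hi
      obtain ⟨b1, b2⟩ := hf2 j hj
      have h3 : K ^ (i + 1) ≤ K ^ j := pow_le_pow_right₀ hK hij
      have h4 : H0 * K ^ (i + 1) ≤ H0 * K ^ j := mul_le_mul_of_nonneg_left h3 hH.le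
      linarith
    intro i hi j hj hij
    have hi' : i ∈ Finset.range (l.length + 1) := by simpa using hi
    have hj' : j ∈ Finset.range (l.length + 1) := by simpa using hj
    rcases lt_trichotomy i j with h3 | h3 | h3
    · exact absurd hij (key i j hi' hj' h3).ne
    · exact h3
    · exact absurd hij (key j i hj' hi' h3).ne'
  have h3 := Finset.card_le_card_of_injOn f (fun i hi => hf i hi) h2
  rw [Finset.card_range] at h3
  have h4 := List.toFinset_card_le l
  omega

end

end Pool.Agent.H25.IC
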