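import Pool.Agent.H25.NB.App

/-!
# A lower bound for linear forms in the logarithms of 2, 3 and an integer, linear in the height
-/

set_option autoImplicit false

namespace Pool.Agent.H25.IC

open Finset Pool.Agent.H25.NB

noncomputable section

/-- The bound for two small bases and an arbitrary integer `g`. -/
theorem low {q p g m d k : ℕ} {η G E Γ : ℝ} (hq : 2 ≤ q) (hp : 2 ≤ p) (hg : 2 ≤ g) (hm : 1 ≤ m)
    (hsq : ∀ e : Fin 3 → Fin 2, e ≠ 0 →
      ¬ IsSquare (∏ i, (DT.av ⟨q, p, g, m, d, k⟩) i ^ (e i : ℕ)))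
    (ha : Real.log q ≤ 1.62) (hb : Real.log p ≤ 1.62) (hgΓ : Real.log g ≤ Γ) (hΓ : 1 ≤ Γ)
    (hrel : m * Real.log g = d * Real.log q - k * Real.log p + η)
    (hG : 1 ≤ G) (hE : E = 2 * 10 ^ 11 * (Γ * G ^ 4))
    (hGE : 2 * ((m + d + k : ℝ) * E) ≤ Real.exp G) (h4E : 4 * E ≤ Real.exp G) :
    Real.exp (-(6327321 * (E * G ^ 2))) < |η| := by
  by_contra hη
  rw [not_lt] at hη
  have hlq : 0.69 ≤ Real.log q := by
    have h1 : Real.log 2 ≤ Real.log q := Real.log_le_log (by norm_num) (by exact_mod_cast hq)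
    have h2 := Real.log_two_gt_d9
    linarith
  have hlp : 0.69 ≤ Real.log p := by
    have h1 : Real.log 2 ≤ Real.log p := Real.log_le_log (by norm_num) (by exact_mod_cast hp)
    have h2 := Real.log_two_gt_d9
    linarith
  have hlg : 0.69 ≤ Real.log g := by
    have h1 : Real.log 2 ≤ Real.log g := Real.log_le_log (by norm_num) (by exact_mod_cast hg)
    have h2 := Real.log_two_gt_d9
    linarith
  have hG4 : 1 ≤ G ^ 4 := one_le_pow₀ hG
  have hΓG : Γ ≤ Γ * G ^ 4 := by nlinarith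
  have hΓE : 100 * Γ ≤ E := by rw [hE]; nlinarith
  have haE : Real.log q ≤ E := by linarith
  have hbE : Real.log p ≤ E := by linarith
  have hgE : Real.log g ≤ E := by linarith
  have hE1 : 1 ≤ E := by linarith
  obtain ⟨u1, v1⟩ := two_pow_log (x := E) (y := Real.log q) (by linarith) haE
  obtain ⟨u2, v2⟩ := two_pow_log (x := E) (y := Real.log p) (by linarith) hbE
  obtain ⟨u3, v3⟩ := two_pow_log (x := E) (y := Γ) (by linarith) (by linarith)
  set n1 := Nat.log 2 ⌊E / Real.log q⌋₊ with hn1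
  set n2 := Nat.log 2 ⌊E / Real.log p⌋₊ with hn2
  set n3 := Nat.log 2 ⌊E / Γ⌋₊ with hn3
  set N1 : ℝ := (2 : ℝ) ^ n1 with hN1
  set N2 : ℝ := (2 : ℝ) ^ n2 with hN2
  set N3 : ℝ := (2 : ℝ) ^ n3 with hN3
  have hN10 : 1 ≤ N1 := one_le_pow₀ (by norm_num)
  have hN20 : 1 ≤ N2 := one_le_pow₀ (by norm_num)
  have hN30 : 1 ≤ N3 := one_le_pow₀ (by norm_num)
  have hN1E : N1 ≤ 2 * E := by nlinarith
  have hN2E : N2 ≤ 2 * E := by nlinarith
  have hN3E : N3 ≤ E := by nlinarith
  have hEG : 4 * E ≤ Real.exp G := h4E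
  set τ := ⌈1000 * E⌉₊ with hτ
  set σ := ⌈300 * G ^ 2⌉₊ with hσ
  set J := ⌊2 * G⌋₊ with hJ
  have t1 : 1000 * E ≤ τ := Nat.le_ceil _
  have t2 : (τ : ℝ) ≤ 1001 * E := by
    have := (Nat.ceil_lt_add_one (show (0 : ℝ) ≤ 1000 * E by linarith)).le
    linarith
  have s1 : 300 * G ^ 2 ≤ σ := Nat.le_ceil _
  have s2 : (σ : ℝ) ≤ 301 * G ^ 2 := by
    have := (Nat.ceil_lt_add_one (show (0 : ℝ) ≤ 300 * G ^ 2 by positivity)).le
    nlinarith
  have j1 : (J : ℝ) ≤ 2 * G := Nat.floor_le (by linarith)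
  have hnJ : ∀ n : ℕ, (2 : ℝ) ^ n ≤ 2 * E → n ≤ J := by
    intro n hn
    refine Nat.le_floor ?_
    have h1 : (2 : ℝ) ^ n ≤ Real.exp G := hn.trans (by linarith)
    have h2 := Real.log_le_log (by positivity) h1
    rw [Real.log_exp, Real.log_pow] at h2
    have h3 := Real.log_two_gt_d9
    have h4 : (0 : ℝ) ≤ n := Nat.cast_nonneg _
    nlinarith
  have hGG : G ≤ G ^ 2 := by nlinarith
  have hSz : Sz ⟨q, p, g, m, d, k⟩ τ σ E G η := by
    refine ⟨hq, hp, hg, hm, hrel, hE1, hG, t1, by linarith, ?_, haE, hbE, hgE, h4E⟩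
    refine hη.trans (Real.exp_le_exp.mpr ?_)
    have h1 : (τ * σ : ℝ) ≤ (1001 * E) * (301 * G ^ 2) :=
      mul_le_mul t2 s2 (Nat.cast_nonneg _) (by positivity)
    linarith
  have hm0 : (0 : ℝ) ≤ m := Nat.cast_nonneg _
  have hd0 : (0 : ℝ) ≤ d := Nat.cast_nonneg _
  have hk0 : (0 : ℝ) ≤ k := Nat.cast_nonneg _
  have hBd : Bd ⟨q, p, g, m, d, k⟩ n1 n2 n3 E G := by
    refine ⟨u1, u2, ?_, ?_, ?_, ?_, by linarith⟩
    · exact (mul_le_mul_of_nonneg_left hgΓ (by positivity)).trans u3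
    · refine le_trans ?_ hGE
      have e1 := mul_le_mul_of_nonneg_left hN1E hm0
      have e2 := mul_le_mul_of_nonneg_left hN3E hd0
      have e3 : 0 ≤ (k : ℝ) * E := by positivity
      have e4 : 0 ≤ (d : ℝ) * E := by positivity
      calc (m : ℝ) * N1 + d * N3 ≤ m * (2 * E) + d * E := by linarith
        _ ≤ 2 * ((m + d + k : ℝ) * E) := by linarith
    · refine le_trans ?_ hGE
      have e1 := mul_le_mul_of_nonneg_left hN2E hm0
      have e2 := mul_le_mul_of_nonneg_left hN3E hk0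
      have e3 : 0 ≤ (k : ℝ) * E := by positivity
      have e4 : 0 ≤ (d : ℝ) * E := by positivity
      calc (m : ℝ) * N2 + k * N3 ≤ m * (2 * E) + k * E := by linarith
        _ ≤ 2 * ((m + d + k : ℝ) * E) := by linarith
    · have e1 : Real.exp (3 * G) = Real.exp G * (Real.exp G * Real.exp G) := by
        rw [← Real.exp_add, ← Real.exp_add]
        congr 1
        ring
      rw [e1]
      exact mul_le_mul (by linarith) (mul_le_mul (by linarith) (by linarith)
        (by positivity) (by positivity)) (by positivity) (by positivity)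
  refine three_logs hSz hsq (hnJ n1 hN1E) (hnJ n2 hN2E) (hnJ n3 (by linarith)) ?_ hBd ?_
  · nlinarith
  · have hreal : (2 : ℝ) * ((τ * (J + 1) + 1) * ((τ * (J + 1) + 1) * σ)) ≤ N1 * (N2 * N3) := by
      have hJ0 : (0 : ℝ) ≤ J := Nat.cast_nonneg _
      have hτ0 : (0 : ℝ) ≤ τ := Nat.cast_nonneg _
      have w1 : (τ : ℝ) * (J + 1) + 1 ≤ 3004 * (E * G) := by
        have h1 : (τ : ℝ) * (J + 1) ≤ (1001 * E) * (3 * G) :=
          mul_le_mul t2 (by linarith) (by positivity) (by positivity)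
        nlinarith
      have w2 : (2 : ℝ) * ((τ * (J + 1) + 1) * ((τ * (J + 1) + 1) * σ))
          ≤ 2 * ((3004 * (E * G)) * ((3004 * (E * G)) * (301 * G ^ 2))) := by
        have h1 : ((τ : ℝ) * (J + 1) + 1) * σ ≤ (3004 * (E * G)) * (301 * G ^ 2) :=
          mul_le_mul w1 s2 (Nat.cast_nonneg _) (by positivity)
        have h2 := mul_le_mul w1 h1 (by positivity) (by positivity)
        linarith
      refine w2.trans ?_
      have v1' : E ≤ 3.24 * N1 := v1.trans (by nlinarith)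
      have v2' : E ≤ 3.24 * N2 := v2.trans (by nlinarith)
      have w3 : E * (E * E) ≤ (3.24 * N1) * ((3.24 * N2) * (2 * Γ * N3)) :=
        mul_le_mul v1' (mul_le_mul v2' v3 (by positivity) (by positivity)) (by positivity)
          (by positivity)
      have w4 : E * (E * E) = Γ * (2 * 10 ^ 11 * (G ^ 4 * E ^ 2)) := by
        nth_rewrite 1 [hE]
        ring
      have w5 : (3.24 * N1) * ((3.24 * N2) * (2 * Γ * N3)) = Γ * (20.9952 * (N1 * (N2 * N3))) := by
        ring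
      rw [w4, w5] at w3
      have w6 := le_of_mul_le_mul_left w3 (by linarith)
      have w7 : 0 ≤ G ^ 4 * E ^ 2 := by positivity
      have w8 : 2 * ((3004 * (E * G)) * ((3004 * (E * G)) * (301 * G ^ 2)))
          = 5432457632 * (G ^ 4 * E ^ 2) := by ring
      rw [w8]
      linarith
    have h9 : ((2 * ((τ * (J + 1) + 1) * ((τ * (J + 1) + 1) * σ)) : ℕ) : ℝ)
        ≤ ((2 ^ n1 * (2 ^ n2 * 2 ^ n3) : ℕ) : ℝ) := by
      push_cast
      exact hreal
    exact_mod_cast h9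

end

end Pool.Agent.H25.IC
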