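import Pool.Agent.H25.IC.Gap
import Pool.Agent.H25.IC.Low

/-!
# Additive expressions of numbers `2 ^ m * 3 ^ k`
-/

set_option autoImplicit false

namespace Pool.Agent.H25.IC

open Pool.Agent.H25.NB

noncomputable section

/-- The lower bound for the linear form. -/
lemma baker {A d k' m : ℕ} {η l Γ : ℝ} (hl : l = Real.log m) (hlm : 10 ^ 24 ≤ l)
    (h2 : ¬ 2 ∣ A) (h3 : ¬ 3 ∣ A) (hΓ : 2 ≤ Γ) (hΓm' : 2 * Γ ≤ m) (hA : Real.log A ≤ Γ)
    (hk1 : 1 ≤ k') (hd : d ≤ m) (hk : k' ≤ m)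
    (hrel : Real.log A = d * Real.log 2 - k' * Real.log 3 - η) (hη : 0 < η)
    (hbig : 16 * 10 ^ 14 * l ^ 4 ≤ (m : ℝ) ^ 2) :
    Real.exp (-(53 * 10 ^ 20 * (Γ * l ^ 6))) < η := by
  have hm0 : (0 : ℝ) < m := by linarith
  have hΓm : Γ ≤ m := by linarith
  have hl0 : 0 < l := by linarith
  have hexp : Real.exp (4 * l) = (m : ℝ) ^ 4 := by
    rw [hl, show (4 : ℝ) * Real.log m = Real.log m * 4 by ring, ← Real.rpow_def_of_pos hm0]
    norm_cast
  have hm1 : (1 : ℝ) ≤ m := by linarith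
  set E : ℝ := 2 * 10 ^ 11 * (Γ * (4 * l) ^ 4) with hE
  have hEl : E = 512 * 10 ^ 11 * (Γ * l ^ 4) := by rw [hE]; ring
  have hEm : 24 * ((m : ℝ) * E) ≤ (m : ℝ) ^ 4 := by
    rw [hEl]
    have h4 : 0 ≤ l ^ 4 := by positivity
    have h5 : Γ * l ^ 4 ≤ m * l ^ 4 := mul_le_mul_of_nonneg_right hΓm h4
    calc 24 * ((m : ℝ) * (512 * 10 ^ 11 * (Γ * l ^ 4)))
        = 12288 * 10 ^ 11 * (m * (Γ * l ^ 4)) := by ring
      _ ≤ 12288 * 10 ^ 11 * (m * (m * l ^ 4)) := by gcongr
      _ = (m : ℝ) ^ 2 * (12288 * 10 ^ 11 * l ^ 4) := by ring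
      _ ≤ (m : ℝ) ^ 2 * (m : ℝ) ^ 2 := by
          apply mul_le_mul_of_nonneg_left _ (by positivity)
          linarith
      _ = (m : ℝ) ^ 4 := by ring
  have hE0 : 0 ≤ E := by positivity
  have h4E : 4 * E ≤ Real.exp (4 * l) := by
    rw [hexp]
    nlinarith
  have key : ∀ (q p g m' d' k₁ : ℕ) (η' : ℝ), 2 ≤ q → 2 ≤ p → 2 ≤ g → 1 ≤ m' →
      (∀ e : Fin 3 → Fin 2, e ≠ 0 →
        ¬ IsSquare (∏ i, (DT.av ⟨q, p, g, m', d', k₁⟩) i ^ (e i : ℕ))) →
      Real.log q ≤ 1.62 → Real.log p ≤ 1.62 → Real.log g ≤ Γ →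
      (m' : ℝ) * Real.log g = d' * Real.log q - k₁ * Real.log p + η' →
      m' ≤ m → d' ≤ m → k₁ ≤ m → Real.exp (-(53 * 10 ^ 20 * (Γ * l ^ 6))) < |η'| := by
    intro q p g m' d' k₁ η' hq hp hg hm' hsq ha hb hgΓ hr q1 q2 q3
    have r1 : (m' : ℝ) ≤ m := by exact_mod_cast q1
    have r2 : (d' : ℝ) ≤ m := by exact_mod_cast q2
    have r3 : (k₁ : ℝ) ≤ m := by exact_mod_cast q3
    have h := low (G := 4 * l) (E := E) (Γ := Γ) hq hp hg hm' hsq ha hb hgΓ (by linarith) hr
      (by linarith) hE (by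
        rw [hexp]
        have : ((m' : ℝ) + d' + k₁) * E ≤ (3 * m) * E :=
          mul_le_mul_of_nonneg_right (by linarith) hE0
        nlinarith) h4E
    refine lt_of_le_of_lt (Real.exp_le_exp.mpr ?_) h
    rw [hEl]
    have : 6327321 * (512 * 10 ^ 11 * (Γ * l ^ 4) * (4 * l) ^ 2) =
        6327321 * 8192 * 10 ^ 11 * (Γ * l ^ 6) := by ring
    rw [this]
    have h6 : 0 ≤ Γ * l ^ 6 := by positivity
    nlinarith
  have hlog5 : Real.log 5 ≤ 1.62 := by
    have h1 := Real.log_two_lt_d9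
    have h3 : Real.log ((5 : ℝ) ^ 3) ≤ Real.log ((2 : ℝ) ^ 7) :=
      Real.log_le_log (by norm_num) (by norm_num)
    rw [Real.log_pow, Real.log_pow] at h3
    push_cast at h3
    linarith
  have hlog2 : Real.log 2 ≤ 1.62 := by
    have := Real.log_two_lt_d9
    linarith
  have hlog3 : Real.log 3 ≤ 1.62 := by
    have := Real.log_three_lt_d9
    linarith
  have hA0 : A ≠ 0 := by
    rintro rfl
    exact h2 (dvd_zero 2)
  rcases Nat.lt_or_ge A 2 with h | h
  · have hA1 : A = 1 := by omega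
    rw [hA1] at hrel
    rw [Nat.cast_one, Real.log_one] at hrel
    have h5 := key 2 5 3 k' d 0 (-η) le_rfl (by norm_num) (by norm_num) hk1
      (indep Nat.prime_two Nat.prime_five (by norm_num) (by norm_num) (by norm_num) (by
        rintro ⟨c, hc⟩
        have : c ≤ 1 ∨ 2 ≤ c := by omega
        rcases this with h6 | h6
        · have : c * c ≤ 1 * 1 := Nat.mul_le_mul h6 h6
          omega
        · have : 2 * 2 ≤ c * c := Nat.mul_le_mul h6 h6
          omega)) (by exact_mod_cast hlog2) (by exact_mod_cast hlog5) (by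
        push_cast
        linarith) (by
        push_cast
        linarith) hk hd (Nat.zero_le _)
    rwa [abs_neg, abs_of_pos hη] at h5
  · obtain ⟨g, m', hm', hg, hgm, hns⟩ := exists_root A h
    have hg2 : ¬ 2 ∣ g := fun hh => h2 (hgm ▸ Dvd.dvd.pow hh (by omega))
    have hg3 : ¬ 3 ∣ g := fun hh => h3 (hgm ▸ Dvd.dvd.pow hh (by omega))
    have hlogA : Real.log A = m' * Real.log g := by
      rw [← hgm]
      push_cast
      rw [Real.log_pow]
    have hlg : Real.log 2 ≤ Real.log g := Real.log_le_log (by norm_num) (by exact_mod_cast hg)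
    have hl2 := Real.log_two_gt_d9
    have hm'1 : (1 : ℝ) ≤ m' := by exact_mod_cast hm'
    have hgA : Real.log g ≤ Real.log A := by
      rw [hlogA]
      nlinarith
    have hm'm : m' ≤ m := by
      have h6 : (m' : ℝ) * 0.69 ≤ Γ := by nlinarith
      have h7 : (m' : ℝ) ≤ m := by linarith
      exact_mod_cast h7
    have h5 := key 2 3 g m' d k' (-η) le_rfl (by norm_num) hg hm'
      (indep Nat.prime_two Nat.prime_three (by norm_num) hg2 hg3 hns) (by exact_mod_cast hlog2)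
      (by exact_mod_cast hlog3) (by linarith) (by
        rw [← hlogA]
        push_cast
        linarith) hm'm hd hk
    rwa [abs_neg, abs_of_pos hη] at h5

open Ex in
/-- An additive expression of `2 ^ m * 3 ^ k` has many large additions or a large defect. -/
theorem root_bound {m k : ℕ} {a b : Ex} {l : ℝ} (hl : l = Real.log m) (hlm : 10 ^ 24 ≤ l)
    (hval : (add a b).val = 2 ^ m * 3 ^ k) (hκ : (add a b).kap ≤ l)
    (hlen : 12 * (l ^ 8) ^ ((add a b).lst.length + 1) ≤ m)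
    (hbig : 16 * 10 ^ 14 * l ^ 4 ≤ (m : ℝ) ^ 2) : False := by
  have hl1 : 1 ≤ l := le_trans (by norm_num) hlm
  have hl0 : 0 < l := by linarith
  have hL := L_gt
  have hL' := L_lt
  have l2 := Real.log_two_gt_d9
  have l3 := Real.log_three_gt_d9
  have l2' := Real.log_two_lt_d9
  set N := (add a b).lst.length with hN
  have hκ0 := kap_nonneg (add a b)
  have hN3 : (N : ℝ) ≤ 3 * l := by
    have h1 := length_lst (add a b)
    have h2 : (0 : ℝ) ≤ (N : ℝ) := Nat.cast_nonneg _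
    rw [← hN] at h1
    nlinarith
  have hK1 : (1 : ℝ) ≤ l ^ 8 := one_le_pow₀ hl1
  obtain ⟨i, hi, hgap⟩ := exists_gap (add a b).lst 6 (l ^ 8) (by norm_num) hK1
  set H : ℝ := 6 * (l ^ 8) ^ i with hH
  have hH6 : 6 ≤ H := by
    have : (1 : ℝ) ≤ (l ^ 8) ^ i := one_le_pow₀ hK1
    linarith
  have hKH : 6 * (l ^ 8) ^ (i + 1) = l ^ 8 * H := by
    rw [hH, pow_succ]
    ring
  rw [hKH] at hgap
  have hKm : 2 * (l ^ 8 * H) ≤ m := by
    rw [← hKH]
    have : (l ^ 8) ^ (i + 1) ≤ (l ^ 8) ^ (N + 1) := pow_le_pow_right₀ hK1 (by omega)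
    linarith
  have hl7 : 10 ^ 24 * (l ^ 7 * H) ≤ l ^ 8 * H := by
    have h1 : 0 ≤ l ^ 7 * H := by positivity
    calc 10 ^ 24 * (l ^ 7 * H) ≤ l * (l ^ 7 * H) := mul_le_mul_of_nonneg_right hlm h1
      _ = l ^ 8 * H := by ring
  have hl71 : l ≤ l ^ 7 := by
    calc l = l ^ 1 := (pow_one l).symm
      _ ≤ l ^ 7 := pow_le_pow_right₀ hl1 (by norm_num)
  have hlH : l * H ≤ l ^ 7 * H := mul_le_mul_of_nonneg_right hl71 (by linarith)
  have hlH6 : 6 * l ≤ l * H := by nlinarith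
  -- the values
  have hlogv : Real.log (((add a b).val : ℕ) : ℝ) = m * Real.log 2 + k * Real.log 3 := by
    rw [hval]
    push_cast
    rw [Real.log_mul (by positivity) (by positivity), Real.log_pow, Real.log_pow]
  have hm0 : (0 : ℝ) ≤ m := Nat.cast_nonneg _
  have hk0 : (0 : ℝ) ≤ k := Nat.cast_nonneg _
  have hroot : ¬ Real.log ((a.val + b.val : ℕ) : ℝ) ≤ H := by
    have h1 : Real.log ((a.val + b.val : ℕ) : ℝ) = m * Real.log 2 + k * Real.log 3 := hlogv
    rw [h1]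
    intro h2
    have h3 : 0 ≤ (k : ℝ) * Real.log 3 := by positivity
    nlinarith
  have hlt := tr_lt H a b hroot
  have htp : (0 : ℝ) < (((add a b).tr H : ℕ) : ℝ) := by exact_mod_cast tr_pos H (add a b)
  have herr := err l H (l ^ 8 * H) hH6 (add a b) hκ hgap
  set η := Real.log (((add a b).val : ℕ) : ℝ) - Real.log (((add a b).tr H : ℕ) : ℝ) with hη
  have hη0 : 0 < η := by
    have hlt' : (((add a b).tr H : ℕ) : ℝ) < (((add a b).val : ℕ) : ℝ) := by exact_mod_cast hlt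
    have := Real.log_lt_log htp hlt'
    linarith
  have hη1 : η ≤ Real.exp (28 * l - l ^ 8 * H) := by
    have h1 : (N : ℝ) * (2 * Real.exp (60 * L * l - l ^ 8 * H)) ≤
        (3 * l) * (2 * Real.exp (60 * L * l - l ^ 8 * H)) :=
      mul_le_mul_of_nonneg_right hN3 (by positivity)
    have h2 : 6 * l ≤ Real.exp (6 * l) := by
      have := Real.add_one_le_exp (6 * l)
      linarith
    have h3 : (3 * l) * (2 * Real.exp (60 * L * l - l ^ 8 * H)) ≤
        Real.exp (6 * l) * Real.exp (60 * L * l - l ^ 8 * H) := by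
      have := Real.exp_pos (60 * L * l - l ^ 8 * H)
      nlinarith
    rw [← Real.exp_add] at h3
    have h4 : Real.exp (6 * l + (60 * L * l - l ^ 8 * H)) ≤ Real.exp (28 * l - l ^ 8 * H) := by
      apply Real.exp_le_exp.mpr
      nlinarith
    linarith
  have hη2 : η ≤ 1 := by
    refine hη1.trans ?_
    rw [Real.exp_le_one_iff]
    linarith
  -- the truncated product
  obtain ⟨y, Q, hQ, hQ1, hQl⟩ := tr_shape H hH6 (add a b)
  obtain ⟨x, Q1, hQ2, hQ3⟩ := Nat.exists_eq_pow_mul_and_not_dvd (show Q ≠ 0 by omega) 2 (by norm_num)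
  have hQ10 : Q1 ≠ 0 := by
    rintro rfl
    exact hQ2 (dvd_zero 2)
  obtain ⟨z, A, hA3, hA⟩ := Nat.exists_eq_pow_mul_and_not_dvd hQ10 3 (by norm_num)
  have hA0 : A ≠ 0 := by
    rintro rfl
    exact hA3 (dvd_zero 3)
  have hA2 : ¬ 2 ∣ A := by
    intro h
    apply hQ2
    rw [hA]
    exact Dvd.dvd.mul_left h _
  have hA1 : (0 : ℝ) < A := by exact_mod_cast Nat.pos_of_ne_zero hA0
  have hlogA0 : 0 ≤ Real.log A := Real.log_natCast_nonneg A
  have hlogQ : Real.log Q = x * Real.log 2 + (z * Real.log 3 + Real.log A) := by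
    rw [hQ3, hA]
    push_cast
    rw [Real.log_mul (by positivity) (by positivity), Real.log_mul (by positivity) hA1.ne',
      Real.log_pow, Real.log_pow]
  have hlogt : Real.log (((add a b).tr H : ℕ) : ℝ) = y * Real.log 3 + Real.log Q := by
    rw [hQ]
    push_cast
    have : (0 : ℝ) < Q := by exact_mod_cast hQ1
    rw [Real.log_mul (by positivity) this.ne', Real.log_pow]
  have hQl' : Real.log Q ≤ 60 * (l * H) := by
    refine hQl.trans ?_
    have : 60 * (add a b).kap * H ≤ 60 * l * H := by gcongr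
    linarith
  have hx0 : 0 ≤ (x : ℝ) * Real.log 2 := by positivity
  have hz0 : 0 ≤ (z : ℝ) * Real.log 3 := by positivity
  have hxm : x < m := by
    have h1 : (x : ℝ) * 0.69 ≤ 60 * (l * H) := by
      have : (x : ℝ) * 0.69 ≤ x * Real.log 2 := by
        have : (0 : ℝ) ≤ x := Nat.cast_nonneg _
        nlinarith
      linarith
    have h2 : (x : ℝ) < m := by linarith
    exact_mod_cast h2
  have hrel : (m : ℝ) * Real.log 2 + k * Real.log 3 = (y + z) * Real.log 3 + x * Real.log 2 +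
      Real.log A + η := by
    rw [hη, hlogv, hlogt, hlogQ]
    ring
  have hky : k < y + z := by
    by_contra hcon
    have h1 : y + z ≤ k := by omega
    have h2 : ((y : ℝ) + z) ≤ k := by exact_mod_cast h1
    have h3 : ((y : ℝ) + z) * Real.log 3 ≤ k * Real.log 3 := by gcongr
    have h4 : (m : ℝ) * 0.69 ≤ m * Real.log 2 := by nlinarith
    linarith
  have hd : ((m - x : ℕ) : ℝ) = m - x := by
    rw [Nat.cast_sub hxm.le]
  have hk' : ((y + z - k : ℕ) : ℝ) = y + z - k := by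
    rw [Nat.cast_sub hky.le]
    push_cast
    ring
  have hrel2 : Real.log A = ((m - x : ℕ) : ℝ) * Real.log 2 - ((y + z - k : ℕ) : ℝ) * Real.log 3 - η := by
    rw [hd, hk']
    linarith
  have hkm : y + z - k ≤ m := by
    have h1 : ((y + z - k : ℕ) : ℝ) * Real.log 3 ≤ m * Real.log 2 := by
      rw [hk']
      linarith
    have h2 : ((y + z - k : ℕ) : ℝ) ≤ m := by nlinarith
    exact_mod_cast h2
  have hfin := baker (Γ := 60 * (l * H) + 2) hl hlm hA2 hA3 (by nlinarith) (by linarith)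
    (by linarith) (show 1 ≤ y + z - k by omega) (show m - x ≤ m by omega) hkm hrel2 hη0 hbig
  have h1 := lt_of_lt_of_le hfin hη1
  rw [Real.exp_lt_exp] at h1
  have h2 : (60 * (l * H) + 2) * l ^ 6 ≤ 61 * (l ^ 7 * H) := by
    have h3 : 2 * l ^ 6 ≤ l ^ 7 * H := by
      have h4 : 0 ≤ l ^ 6 := by positivity
      have h5 : 2 ≤ l * H := by linarith
      calc 2 * l ^ 6 ≤ (l * H) * l ^ 6 := mul_le_mul_of_nonneg_right h5 h4
        _ = l ^ 7 * H := by ring
    calc (60 * (l * H) + 2) * l ^ 6 = 60 * (l ^ 7 * H) + 2 * l ^ 6 := by ring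
      _ ≤ 61 * (l ^ 7 * H) := by linarith
  linarith

end

end Pool.Agent.H25.IC
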