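import Mathlib

/-!
# Expressions in ones, addition and multiplication: sizes and defects
-/

set_option autoImplicit false

namespace Pool.Agent.H25.IC

noncomputable section

/-- Expressions. -/
inductive Ex
  | one : Ex
  | add : Ex → Ex → Ex
  | mul : Ex → Ex → Ex

namespace Ex

/-- The value. -/
def val : Ex → ℕ
  | one => 1
  | add a b => a.val + b.val
  | mul a b => a.val * b.val

/-- The number of ones. -/
def sz : Ex → ℕ
  | one => 1
  | add a b => a.sz + b.sz
  | mul a b => a.sz + b.sz

/-- A third of the logarithm of 3. -/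
def L : ℝ := Real.log 3 / 3

/-- The defect, in natural logarithms. -/
def kap (e : Ex) : ℝ := e.sz * L - Real.log e.val

lemma val_pos (e : Ex) : 1 ≤ e.val := by
  induction e with
  | one => exact le_rfl
  | add a b ha hb => simp only [val]; omega
  | mul a b ha hb => exact Nat.mul_pos ha hb

lemma sz_pos (e : Ex) : 1 ≤ e.sz := by
  induction e with
  | one => exact le_rfl
  | add a b ha hb => simp only [sz]; omega
  | mul a b ha hb => simp only [sz]; omega

lemma sz_two (e : Ex) (h : 2 ≤ e.val) : 2 ≤ e.sz := by
  cases e with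
  | one => simp [val] at h
  | add a b => have := sz_pos a; have := sz_pos b; simp only [sz]; omega
  | mul a b => have := sz_pos a; have := sz_pos b; simp only [sz]; omega

/-- The bound of Selfridge. -/
lemma selfridge (e : Ex) : e.val ^ 3 ≤ 3 ^ e.sz := by
  induction e with
  | one => simp [val, sz]
  | mul a b ha hb =>
    simp only [val, sz, mul_pow, pow_add]
    exact Nat.mul_le_mul ha hb
  | add a b ha hb =>
    have key : ∀ x y : Ex, x.val ^ 3 ≤ 3 ^ x.sz → y.val ^ 3 ≤ 3 ^ y.sz → y.val = 1 →
        (x.val + y.val) ^ 3 ≤ 3 ^ (x.sz + y.sz) := by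
      intro x y hx hy h1
      have hy1 := sz_pos y
      have hx1 := sz_pos x
      have h3 : 3 ^ (x.sz + 1) ≤ 3 ^ (x.sz + y.sz) := Nat.pow_le_pow_right (by norm_num) (by omega)
      refine le_trans ?_ h3
      rw [h1, pow_succ 3 x.sz]
      have hv := val_pos x
      rcases Nat.lt_or_ge x.val 3 with h | h
      · have h4 : x.val = 1 ∨ x.val = 2 := by omega
        rcases h4 with h4 | h4
        · rw [h4]
          have : 3 ^ 1 ≤ 3 ^ x.sz := Nat.pow_le_pow_right (by norm_num) hx1
          omega
        · rw [h4]
          have := sz_two x (by omega)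
          have : 3 ^ 2 ≤ 3 ^ x.sz := Nat.pow_le_pow_right (by norm_num) this
          omega
      · have h5 : (x.val + 1) ^ 3 ≤ 3 * x.val ^ 3 := by nlinarith [mul_pos (show 0 < x.val by omega) (show 0 < x.val by omega), mul_le_mul h h (by norm_num) (by omega)]
        omega
    have ha1 := val_pos a
    have hb1 := val_pos b
    simp only [val, sz]
    rcases Nat.lt_or_ge b.val 2 with h | h
    · exact key a b ha hb (by omega)
    · rcases Nat.lt_or_ge a.val 2 with h' | h'
      · have := key b a hb ha (by omega)
        rwa [add_comm b.val, add_comm b.sz] at this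
      · have h6 : a.val + b.val ≤ a.val * b.val := by nlinarith
        calc (a.val + b.val) ^ 3 ≤ (a.val * b.val) ^ 3 := Nat.pow_le_pow_left h6 3
          _ = a.val ^ 3 * b.val ^ 3 := by ring
          _ ≤ 3 ^ a.sz * 3 ^ b.sz := Nat.mul_le_mul ha hb
          _ = 3 ^ (a.sz + b.sz) := by rw [pow_add]

lemma L_lt : L < 0.3663 := by
  unfold L
  have h := Real.log_three_lt_d9
  linarith

lemma L_gt : 0.3662 < L := by
  unfold L
  have h := Real.log_three_gt_d9
  linarith

lemma log_val_le (e : Ex) : Real.log e.val ≤ e.sz * L := by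
  have h := selfridge e
  have h1 : ((e.val : ℝ)) ^ 3 ≤ 3 ^ e.sz := by exact_mod_cast h
  have hv : (0 : ℝ) < e.val := by exact_mod_cast val_pos e
  have h2 := Real.log_le_log (by positivity) h1
  rw [Real.log_pow, Real.log_pow] at h2
  unfold L
  push_cast at h2
  linarith

lemma kap_nonneg (e : Ex) : 0 ≤ e.kap := by
  unfold kap
  linarith [log_val_le e]

lemma kap_mul (a b : Ex) : (mul a b).kap = a.kap + b.kap := by
  have ha : (0 : ℝ) < a.val := by exact_mod_cast val_pos a
  have hb : (0 : ℝ) < b.val := by exact_mod_cast val_pos b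
  simp only [kap, val, sz]
  push_cast
  rw [Real.log_mul ha.ne' hb.ne']
  ring

/-- The larger summand. -/
def big (a b : Ex) : Ex := if b.val ≤ a.val then a else b

/-- The smaller summand. -/
def sml (a b : Ex) : Ex := if b.val ≤ a.val then b else a

lemma big_sml (a b : Ex) : (sml a b).val ≤ (big a b).val ∧
    (big a b).val + (sml a b).val = a.val + b.val ∧ (big a b).sz + (sml a b).sz = a.sz + b.sz := by
  unfold big sml
  split_ifs with h
  · exact ⟨h, rfl, rfl⟩
  · exact ⟨by omega, by omega, by omega⟩

lemma kap_add (a b : Ex) : (add a b).kap = (big a b).kap + (sml a b).sz * L -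
    Real.log (1 + (sml a b).val / (big a b).val) := by
  obtain ⟨h1, h2, h3⟩ := big_sml a b
  have hx : (0 : ℝ) < (big a b).val := by exact_mod_cast val_pos _
  have e2 : ((a.val + b.val : ℕ) : ℝ) = (big a b).val * (1 + (sml a b).val / (big a b).val) := by
    rw [← h2]
    push_cast
    field_simp
  have e3 : ((a.sz + b.sz : ℕ) : ℝ) = (big a b).sz + (sml a b).sz := by
    rw [← h3]
    push_cast
    ring
  simp only [kap, val, sz]
  rw [e2, e3, Real.log_mul hx.ne' (by positivity)]
  ring

/-- The price of an addition. -/
lemma cost (a b : Ex) (h : 3 ≤ (big a b).val) :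
    (big a b).kap + (sml a b).sz / 60 ≤ (add a b).kap := by
  obtain ⟨h1, h2, h3⟩ := big_sml a b
  rw [kap_add]
  have hx : (3 : ℝ) ≤ (big a b).val := by exact_mod_cast h
  have hy : (1 : ℝ) ≤ (sml a b).val := by exact_mod_cast val_pos _
  have hyx : ((sml a b).val : ℝ) ≤ (big a b).val := by exact_mod_cast h1
  have hL := L_gt
  have l2 := Real.log_two_gt_d9
  have l2' := Real.log_two_lt_d9
  have l3 := Real.log_three_gt_d9
  rcases Nat.lt_or_ge (sml a b).sz 2 with hs | hs
  · have hs1 : (sml a b).sz = 1 := by have := sz_pos (sml a b); omega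
    have hv1 : (sml a b).val = 1 := by
      have h4 := val_pos (sml a b)
      by_contra h5
      have := sz_two (sml a b) (by omega)
      omega
    rw [hs1, hv1]
    have h6 : Real.log (1 + ((1 : ℕ) : ℝ) / (big a b).val) ≤ Real.log (4 / 3) := by
      apply Real.log_le_log (by positivity)
      push_cast
      have : 1 / ((big a b).val : ℝ) ≤ 1 / 3 := one_div_le_one_div_of_le (by norm_num) hx
      linarith
    have h7 : Real.log (4 / 3) = 2 * Real.log 2 - Real.log 3 := by
      rw [Real.log_div (by norm_num) (by norm_num), show (4 : ℝ) = 2 ^ 2 by norm_num, Real.log_pow]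
      push_cast
      ring
    rw [h7] at h6
    push_cast at h6 ⊢
    linarith
  · have h6 : Real.log (1 + ((sml a b).val : ℝ) / (big a b).val) ≤ Real.log 2 := by
      apply Real.log_le_log (by positivity)
      have : ((sml a b).val : ℝ) / (big a b).val ≤ 1 := by
        rw [div_le_one (by linarith)]
        exact hyx
      linarith
    have h7 : (2 : ℝ) ≤ (sml a b).sz := by exact_mod_cast hs
    nlinarith

/-- The price of a large addition. -/
lemma cost_large (a b : Ex) (h : 200 ≤ a.val + b.val) :
    (big a b).kap + 0.98 * L ≤ (add a b).kap := by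
  obtain ⟨h1, h2, h3⟩ := big_sml a b
  rw [kap_add]
  have hL := L_gt
  have hL' := L_lt
  have l2' := Real.log_two_lt_d9
  have hy : (1 : ℝ) ≤ (sml a b).val := by exact_mod_cast val_pos _
  have hyx : ((sml a b).val : ℝ) ≤ (big a b).val := by exact_mod_cast h1
  have hx : (100 : ℝ) ≤ (big a b).val := by
    have : 100 ≤ (big a b).val := by omega
    exact_mod_cast this
  rcases Nat.lt_or_ge (sml a b).sz 3 with hs | hs
  · have h4 := selfridge (sml a b)
    have hs1 := sz_pos (sml a b)
    have hsz : (sml a b).sz = 1 ∨ (sml a b).sz = 2 := by omega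
    have hv : (sml a b).val ≤ (sml a b).sz := by
      rcases hsz with h5 | h5
      · rw [h5] at h4 ⊢
        by_contra h6
        have : 2 ^ 3 ≤ (sml a b).val ^ 3 := Nat.pow_le_pow_left (by omega) 3
        omega
      · rw [h5] at h4 ⊢
        by_contra h6
        have : 3 ^ 3 ≤ (sml a b).val ^ 3 := Nat.pow_le_pow_left (by omega) 3
        omega
    have hx2 : (198 : ℝ) ≤ (big a b).val := by
      have : 198 ≤ (big a b).val := by omega
      exact_mod_cast this
    have hv' : ((sml a b).val : ℝ) ≤ (sml a b).sz := by exact_mod_cast hv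
    have h6 : Real.log (1 + ((sml a b).val : ℝ) / (big a b).val) ≤
        ((sml a b).val : ℝ) / (big a b).val := by
      have := Real.log_le_sub_one_of_pos (show 0 < 1 + ((sml a b).val : ℝ) / (big a b).val by
        positivity)
      linarith
    have h7 : ((sml a b).val : ℝ) / (big a b).val ≤ (sml a b).sz / 198 := by
      apply div_le_div₀ (by positivity) hv' (by norm_num) hx2
    have h8 : (1 : ℝ) ≤ (sml a b).sz := by exact_mod_cast hs1
    nlinarith
  · have h6 : Real.log (1 + ((sml a b).val : ℝ) / (big a b).val) ≤ Real.log 2 := by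
      apply Real.log_le_log (by positivity)
      have : ((sml a b).val : ℝ) / (big a b).val ≤ 1 := by
        rw [div_le_one (by linarith)]
        exact hyx
      linarith
    have h7 : (3 : ℝ) ≤ (sml a b).sz := by exact_mod_cast hs
    nlinarith

/-- Expressions which are not powers of 3 have a defect. -/
lemma kap_of_not_pow (e : Ex) (h : ∀ j : ℕ, e.val ≠ 3 ^ j) : 1 / 60 ≤ e.kap := by
  induction e with
  | one => exact absurd rfl (h 0)
  | mul a b ha hb =>
    rw [kap_mul]
    by_cases h1 : ∀ j : ℕ, a.val ≠ 3 ^ j
    · have := ha h1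
      have := kap_nonneg b
      linarith
    · by_cases h2 : ∀ j : ℕ, b.val ≠ 3 ^ j
      · have := hb h2
        have := kap_nonneg a
        linarith
      · push Not at h1 h2
        obtain ⟨i, hi⟩ := h1
        obtain ⟨j, hj⟩ := h2
        exfalso
        apply h (i + j)
        simp only [val]
        rw [hi, hj, pow_add]
  | add a b ha hb =>
    rcases Nat.lt_or_ge (big a b).val 3 with h3 | h3
    · obtain ⟨h1, h2, h4⟩ := big_sml a b
      have v1 := val_pos a
      have v2 := val_pos b
      have hv : (add a b).val = a.val + b.val := rfl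
      have h5 := h 0
      have h6 := h 1
      rw [hv] at h5 h6
      have s1 := sz_pos (add a b)
      have l2 := Real.log_two_lt_d9
      have l3 := L_gt
      have hsz := sz_two (add a b) (by rw [hv]; omega)
      have hs' : (2 : ℝ) ≤ (add a b).sz := by exact_mod_cast hsz
      have h7 : a.val + b.val = 2 ∨ a.val + b.val = 4 := by omega
      unfold kap
      rw [hv]
      rcases h7 with h7 | h7
      · rw [h7]
        push_cast
        nlinarith
      · rw [h7]
        have h8 := selfridge (add a b)
        rw [hv, h7] at h8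
        have h9 : 4 ≤ (add a b).sz := by
          by_contra h10
          have : 3 ^ (add a b).sz ≤ 3 ^ 3 := Nat.pow_le_pow_right (by norm_num) (by omega)
          omega
        have h11 : (4 : ℝ) ≤ (add a b).sz := by exact_mod_cast h9
        have h12 : Real.log ((4 : ℕ) : ℝ) = 2 * Real.log 2 := by
          rw [show ((4 : ℕ) : ℝ) = 2 ^ 2 by norm_num, Real.log_pow]
          push_cast
          ring
        rw [h12]
        nlinarith
    · have h4 := cost a b h3
      have h5 := kap_nonneg (big a b)
      have h6 : (1 : ℝ) ≤ (sml a b).sz := by exact_mod_cast sz_pos _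
      linarith

open Classical in
/-- The logarithms of the large additions met when the smaller summands are dropped. -/
def lst : Ex → List ℝ
  | one => []
  | mul a b => a.lst ++ b.lst
  | add a b => if 200 ≤ a.val + b.val then
      Real.log ((a.val + b.val : ℕ) : ℝ) :: (if b.val ≤ a.val then a.lst else b.lst) else []

open Classical in
/-- The truncated product. -/
def tr (H : ℝ) : Ex → ℕ
  | one => 1
  | mul a b => a.tr H * b.tr H
  | add a b => if Real.log ((a.val + b.val : ℕ) : ℝ) ≤ H then a.val + b.val else
      (if b.val ≤ a.val then a.tr H else b.tr H)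

lemma lst_add (a b : Ex) (h : 200 ≤ a.val + b.val) :
    (add a b).lst = Real.log ((a.val + b.val : ℕ) : ℝ) :: (big a b).lst := by
  simp only [lst, if_pos h, big]
  congr 1
  split_ifs <;> rfl

lemma lst_add' (a b : Ex) (h : ¬ 200 ≤ a.val + b.val) : (add a b).lst = [] := by
  simp only [lst, if_neg h]

lemma tr_add (H : ℝ) (a b : Ex) (h : ¬ Real.log ((a.val + b.val : ℕ) : ℝ) ≤ H) :
    (add a b).tr H = (big a b).tr H := by
  simp only [tr, if_neg h, big]
  split_ifs <;> rfl

lemma tr_add' (H : ℝ) (a b : Ex) (h : Real.log ((a.val + b.val : ℕ) : ℝ) ≤ H) :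
    (add a b).tr H = a.val + b.val := by
  simp only [tr, if_pos h]

/-- Induction along the larger summand. -/
lemma big_ind {p : Ex → Prop} (h1 : p one) (hm : ∀ a b, p a → p b → p (mul a b))
    (ha : ∀ a b, p (big a b) → p (add a b)) (e : Ex) : p e := by
  induction e with
  | one => exact h1
  | mul a b ia ib => exact hm a b ia ib
  | add a b ia ib =>
    apply ha
    unfold big
    split_ifs
    · exact ia
    · exact ib

lemma length_lst (e : Ex) : (e.lst.length : ℝ) * (0.98 * L) ≤ e.kap := by
  induction e using big_ind with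
  | h1 => simpa [lst] using kap_nonneg one
  | hm a b ha hb =>
    simp only [lst, List.length_append]
    rw [kap_mul]
    push_cast
    linarith
  | ha a b h =>
    by_cases h2 : 200 ≤ a.val + b.val
    · rw [lst_add a b h2, List.length_cons]
      have := cost_large a b h2
      push_cast
      linarith
    · rw [lst_add' a b h2]
      simpa using kap_nonneg (add a b)

lemma tr_pos (H : ℝ) (e : Ex) : 1 ≤ e.tr H := by
  induction e using big_ind with
  | h1 => exact le_rfl
  | hm a b ha hb => exact Nat.mul_pos ha hb
  | ha a b h =>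
    by_cases h2 : Real.log ((a.val + b.val : ℕ) : ℝ) ≤ H
    · rw [tr_add' H a b h2]
      have := val_pos a
      omega
    · rw [tr_add H a b h2]
      exact h

lemma tr_le (H : ℝ) (e : Ex) : e.tr H ≤ e.val := by
  induction e using big_ind with
  | h1 => exact le_rfl
  | hm a b ha hb => exact Nat.mul_le_mul ha hb
  | ha a b h =>
    by_cases h2 : Real.log ((a.val + b.val : ℕ) : ℝ) ≤ H
    · rw [tr_add' H a b h2]
      exact le_rfl
    · rw [tr_add H a b h2]
      obtain ⟨h3, h4, h5⟩ := big_sml a b
      simp only [val]
      omega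

lemma tr_lt (H : ℝ) (a b : Ex) (h : ¬ Real.log ((a.val + b.val : ℕ) : ℝ) ≤ H) :
    (add a b).tr H < (add a b).val := by
  rw [tr_add H a b h]
  obtain ⟨h3, h4, h5⟩ := big_sml a b
  have := tr_le H (big a b)
  have := val_pos (sml a b)
  simp only [val]
  omega

lemma kap_big_le (a b : Ex) (h : 3 ≤ (big a b).val) : (big a b).kap ≤ (add a b).kap := by
  have := cost a b h
  have h6 : (0 : ℝ) ≤ (sml a b).sz := Nat.cast_nonneg _
  linarith

/-- The truncated product is a power of 3 times a small number. -/
lemma tr_shape (H : ℝ) (hH : 6 ≤ H) (e : Ex) : ∃ y Q : ℕ, e.tr H = 3 ^ y * Q ∧ 1 ≤ Q ∧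
    Real.log Q ≤ 60 * e.kap * H := by
  induction e using big_ind with
  | h1 => exact ⟨0, 1, by simp [tr], le_rfl, by
      have := kap_nonneg one
      simp
      positivity⟩
  | hm a b ha hb =>
    obtain ⟨y, Q, h1, h2, h3⟩ := ha
    obtain ⟨z, R, g1, g2, g3⟩ := hb
    refine ⟨y + z, Q * R, ?_, Nat.mul_pos h2 g2, ?_⟩
    · simp only [tr]
      rw [h1, g1, pow_add]
      ring
    · rw [kap_mul]
      push_cast
      rw [Real.log_mul (by positivity) (by positivity)]
      linarith
  | ha a b h =>
    by_cases h2 : Real.log ((a.val + b.val : ℕ) : ℝ) ≤ H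
    · rw [tr_add' H a b h2]
      have h0 := kap_nonneg (add a b)
      by_cases h3 : ∀ j : ℕ, (add a b).val ≠ 3 ^ j
      · refine ⟨0, a.val + b.val, by simp, by have := val_pos a; omega, ?_⟩
        have := kap_of_not_pow _ h3
        nlinarith
      · push Not at h3
        obtain ⟨j, hj⟩ := h3
        refine ⟨j, 1, ?_, le_rfl, ?_⟩
        · rw [mul_one]
          exact hj
        · simp
          positivity
    · rw [tr_add H a b h2]
      obtain ⟨y, Q, h3, h4, h5⟩ := h
      refine ⟨y, Q, h3, h4, h5.trans ?_⟩
      have h6 : 3 ≤ (big a b).val := by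
        by_contra h7
        obtain ⟨g3, g4, g5⟩ := big_sml a b
        apply h2
        have h8 : ((a.val + b.val : ℕ) : ℝ) ≤ 4 := by
          have : a.val + b.val ≤ 4 := by omega
          exact_mod_cast this
        have h9 := Real.log_le_sub_one_of_pos (show (0 : ℝ) < ((a.val + b.val : ℕ) : ℝ) by
          have := val_pos a
          exact_mod_cast (show 0 < a.val + b.val by omega))
        linarith
      have := kap_big_le a b h6
      nlinarith

end Ex

end

end Pool.Agent.H25.IC
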